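import Pool.Agent.Helper84_Refl.Base
import Pool.Agent.Helper23_Refl.StmtA

/-!
# VERTEXISO
-/

namespace Pool.Agent.Refl.H34

open Matrix

/-- five vectors in a four dimensional space -/
theorem five (a b c v w : Z4) : d4 a b c w • v - d4 a b c v • w =
    d4 a b v w • c - d4 a c v w • b + d4 b c v w • a := by
  funext i
  simp only [d4, Pi.sub_apply, Pi.add_apply, Pi.smul_apply, smul_eq_mul,
    Matrix.det_succ_row_zero, Fin.sum_univ_succ, Matrix.of_apply, Matrix.submatrix_apply,
    Matrix.cons_val_zero, Matrix.cons_val_succ, Fin.succ_zero_eq_one, Matrix.det_unique,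
    Finset.univ_unique, Fin.default_eq_zero, Finset.sum_singleton, Fin.sum_univ_zero, add_zero]
  fin_cases i <;> simp [Fin.succAbove, Fin.succ, Fin.castSucc] <;> ring

variable {G : M4}

/-- functionals vanishing on three vectors are proportional to the determinant -/
theorem prop_det (y : R4) {a b c : Z4} (ha : br G y (up a) = 0) (hb : br G y (up b) = 0)
    (hc : br G y (up c) = 0) (v w : Z4) :
    (d4 a b c w : ℝ) * br G y (up v) = (d4 a b c v : ℝ) * br G y (up w) := by
  have h := congrArg (fun z : Z4 => br G y (up z)) (five a b c v w)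
  simp only [up_sub, up_add, up_smul, br_sub_right, br_add_right, br_smul_right, ha, hb, hc,
    mul_zero, sub_zero, add_zero] at h
  linarith

/-- a small positive number -/
theorem small {n : ℕ} (s t : Fin n → ℝ) (h : ∀ i, s i < 0 ∨ (s i = 0 ∧ t i < 0)) :
    ∃ ε : ℝ, 0 < ε ∧ ∀ i, s i + ε * t i < 0 := by
  have h1 : ∀ i, ∃ ε : ℝ, 0 < ε ∧ ∀ δ : ℝ, 0 < δ → δ ≤ ε → s i + δ * t i < 0 := by
    intro i
    rcases h i with h2 | ⟨h2, h3⟩
    · refine ⟨-s i / (2 * (|t i| + 1)), ?_, ?_⟩
      · apply div_pos (by linarith) (by positivity)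
      · intro δ hδ hδ'
        rw [le_div_iff₀ (by positivity)] at hδ'
        have h4 : δ * t i ≤ δ * |t i| := mul_le_mul_of_nonneg_left (le_abs_self _) hδ.le
        nlinarith
    · refine ⟨1, one_pos, fun δ hδ _ => ?_⟩
      rw [h2, zero_add]
      exact mul_neg_of_pos_of_neg hδ h3
  choose ε hε hε' using h1
  rcases Nat.eq_zero_or_pos n with h0 | h0
  · subst h0
    exact ⟨1, one_pos, fun i => i.elim0⟩
  · have : Nonempty (Fin n) := ⟨⟨0, h0⟩⟩
    refine ⟨Finset.univ.inf' Finset.univ_nonempty ε, ?_, fun i => hε' i _ ?_ ?_⟩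
    · rw [Finset.lt_inf'_iff]
      exact fun i _ => hε i
    · rw [Finset.lt_inf'_iff]
      exact fun i _ => hε i
    · exact Finset.inf'_le _ (Finset.mem_univ i)

theorem vertexIso (hP : PermStmt) (hS : VertexStrictStmt) : VertexIsoStmt := by
  intro G n e O hG hC i j k i' j' k' m m' hV hV' hmi hmj hmk hm'i hm'j hm'k g hg hgi hgj hgk hd
  obtain ⟨hij, hjk, hik, V, hV0, hVle, hVi, hVj, hVk⟩ := hV
  obtain ⟨hij', hjk', hik', V', hV0', hVle', hVi', hVj', hVk'⟩ := hV'
  obtain ⟨-, hstr⟩ := hS G n e O hG hC i j k hij hjk hik V hV0 hVle hVi hVj hVk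
  obtain ⟨-, hstr'⟩ := hS G n e O hG hC i' j' k' hij' hjk' hik' V' hV0' hVle' hVi' hVj' hVk'
  have hbr : ∀ (x : R4) (a : Z4), br G (act (g : M4) x) (up ((g : M4).mulVec a)) = br G x (up a) := by
    intro x a
    rw [← act_up]
    exact br_OG hg x (up a)
  have h1i : br G (act (g : M4) V) (up (e i')) = 0 := by rw [← hgi, hbr, hVi]
  have h1j : br G (act (g : M4) V) (up (e j')) = 0 := by rw [← hgj, hbr, hVj]
  have h1k : br G (act (g : M4) V) (up (e k')) = 0 := by rw [← hgk, hbr, hVk]
  -- the sign
  have key : ∀ a, a ≠ i' → a ≠ j' → a ≠ k' → br G (act (g : M4) V) (up (e a)) < 0 := by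
    intro a hai haj hak
    have hd' : (0 : ℝ) < (d4 (e i') (e j') (e k') ((g : M4).mulVec (e m)) : ℝ) *
        (d4 (e i') (e j') (e k') (e m') : ℝ) := by exact_mod_cast hd
    have e1 := prop_det (G := G) (act (g : M4) V) h1i h1j h1k (e a) ((g : M4).mulVec (e m))
    rw [hbr] at e1
    have e2 := prop_det (G := G) V' hVi' hVj' hVk' (e a) (e m')
    have p1 := hstr m hmi hmj hmk
    have p2 := hstr' m' hm'i hm'j hm'k
    have p3 := hstr' a hai haj hak
    set A : ℝ := (d4 (e i') (e j') (e k') ((g : M4).mulVec (e m)) : ℝ)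
    set B : ℝ := (d4 (e i') (e j') (e k') (e m') : ℝ)
    set D : ℝ := (d4 (e i') (e j') (e k') (e a) : ℝ)
    set f : ℝ := br G (act (g : M4) V) (up (e a))
    set p : ℝ := br G V (up (e m))
    set q : ℝ := br G V' (up (e m'))
    set t : ℝ := br G V' (up (e a))
    -- A f = D p, B t = D q, A B > 0, p, q, t < 0
    have hB : B ≠ 0 := fun h => by rw [h, mul_zero] at hd'; exact lt_irrefl _ hd'
    have hA : A ≠ 0 := fun h => by rw [h, zero_mul] at hd'; exact lt_irrefl _ hd'
    have hB2 : 0 < B ^ 2 := by positivity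
    have hA2 : 0 < A ^ 2 := by positivity
    have h3 : D * B * q = B ^ 2 * t := by rw [mul_assoc, mul_left_comm, ← e2]; ring
    have h4 : 0 < D * B := by
      by_contra hcon
      push Not at hcon
      have h5 : 0 ≤ D * B * q := mul_nonneg_of_nonpos_of_nonpos hcon p2.le
      have h6 : B ^ 2 * t < 0 := mul_neg_of_pos_of_neg hB2 p3
      linarith
    have h5 : 0 < D * A := by
      have h6 : 0 < (D * B) * (A * B) := mul_pos h4 hd'
      have h7 : (D * B) * (A * B) = (D * A) * B ^ 2 := by ring
      rw [h7] at h6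
      exact pos_of_mul_pos_left h6 hB2.le
    have h8 : A ^ 2 * f = D * A * p := by
      have : A ^ 2 * f = A * (A * f) := by ring
      rw [this, e1]; ring
    have h9 : A ^ 2 * f < 0 := by rw [h8]; exact mul_neg_of_pos_of_neg h5 p1
    by_contra hcon
    push Not at hcon
    have := mul_nonneg hA2.le hcon
    linarith
  obtain ⟨ε, hε, hεs⟩ := small (fun a => br G (act (g : M4) V) (up (e a)))
    (fun a => br G (act (g : M4) O) (up (e a))) (by
      intro a
      by_cases hai : a = i'
      · right
        subst hai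
        exact ⟨h1i, by rw [← hgi, hbr]; exact hC.neg i⟩
      · by_cases haj : a = j'
        · right
          subst haj
          exact ⟨h1j, by rw [← hgj, hbr]; exact hC.neg j⟩
        · by_cases hak : a = k'
          · right
            subst hak
            exact ⟨h1k, by rw [← hgk, hbr]; exact hC.neg k⟩
          · left
            exact key a hai haj hak)
  refine hP G n e O hG hC g hg (V + ε • O) ?_ ?_
  · intro a
    rw [br_add_left, br_smul_left]
    have h1 := hVle a
    have h2 := mul_neg_of_pos_of_neg hε (hC.neg a)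
    linarith
  · intro a
    rw [act_add, act_smul, br_add_left, br_smul_left]
    exact hεs a

end Pool.Agent.Refl.H34
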